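import Pool.Agent.Helper75.PY.Stmts

/-! Row R4N: generators in degree four with nonzero `r`. -/

set_option autoImplicit false

universe u

namespace Pool.Agent.Helper59.PY

open Pool.Agent.Helper75.PX

theorem exists_s {K : Type u} [Field K] [Infinite K] (a : K) :
    ∃ s : K, s ≠ 0 ∧ 1 + s ^ 2 * a ≠ 0 ∧ 1 - s ^ 2 * a ≠ 0 := by
  classical
  have h1 : (1 + Polynomial.X ^ 2 * Polynomial.C a : Polynomial K) ≠ 0 := by
    intro h
    have := congrArg (Polynomial.eval 0) h
    simp at this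
  have h2 : (1 - Polynomial.X ^ 2 * Polynomial.C a : Polynomial K) ≠ 0 := by
    intro h
    have := congrArg (Polynomial.eval 0) h
    simp at this
  have h3 : (Polynomial.X * (1 + Polynomial.X ^ 2 * Polynomial.C a) *
      (1 - Polynomial.X ^ 2 * Polynomial.C a) : Polynomial K) ≠ 0 :=
    mul_ne_zero (mul_ne_zero Polynomial.X_ne_zero h1) h2
  obtain ⟨s, hs⟩ := Infinite.exists_notMem_finset (Polynomial.X * (1 + Polynomial.X ^ 2 *
    Polynomial.C a) * (1 - Polynomial.X ^ 2 * Polynomial.C a) : Polynomial K).roots.toFinset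
  rw [Multiset.mem_toFinset, Polynomial.mem_roots h3, Polynomial.IsRoot.def] at hs
  simp only [Polynomial.eval_mul, Polynomial.eval_X, Polynomial.eval_add, Polynomial.eval_sub,
    Polynomial.eval_one, Polynomial.eval_pow, Polynomial.eval_C] at hs
  refine ⟨s, ?_, ?_, ?_⟩
  · rintro rfl
    simp at hs
  · intro h
    rw [h] at hs
    simp at hs
  · intro h
    rw [h] at hs
    simp at hs

theorem st_R4N : Pool.Agent.Helper75.PY.ST_R4N.{u} := by
  intro K A _ _ _ _ α β z w a b p r v h2 hD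
  by_cases hr : r = 0
  swap
  · exact ⟨α, β, z, w, a, b, p, r, v, hD, hr⟩
  subst hr
  obtain ⟨s, hs0, hh, he⟩ := exists_s a
  obtain ⟨h, hhd⟩ : ∃ h : K, h = 1 + s ^ 2 * a := ⟨_, rfl⟩
  obtain ⟨e, hed⟩ : ∃ e : K, e = 1 - s ^ 2 * a := ⟨_, rfl⟩
  rw [← hhd] at hh
  rw [← hed] at he
  have haa : α * α = a • (1 : A) := by rw [hD.haa, Algebra.algebraMap_eq_smul_one]
  have hww : w * w = α := by rw [hD.hww, map_zero, zero_add]
  have hab := hD.hab
  have hwa := hD.hwa
  have hwb := hD.hwb
  have hza := hD.hza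
  obtain ⟨c, hc⟩ : ∃ c : A, c = 1 + s • α := ⟨_, rfl⟩
  obtain ⟨c', hc'⟩ : ∃ c' : A, c' = 1 - s • α := ⟨_, rfl⟩
  have hwc : w * c = c * w := by
    rw [hc, mul_add, add_mul, mul_one, one_mul, mul_smul_comm, smul_mul_assoc, hwa]
  have hwc' : w * c' = c' * w := by
    rw [hc', mul_sub, sub_mul, mul_one, one_mul, mul_smul_comm, smul_mul_assoc, hwa]
  have hzc : z * c = c' * z := by
    rw [hc, hc', mul_add, sub_mul, mul_one, one_mul, mul_smul_comm, smul_mul_assoc, hza, smul_neg,
      sub_eq_add_neg]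
  have hcb : c * β = β * c := by
    rw [hc, mul_add, add_mul, mul_one, one_mul, mul_smul_comm, smul_mul_assoc, hab]
  have hca : c * α = α * c := by
    rw [hc, mul_add, add_mul, mul_one, one_mul, mul_smul_comm, smul_mul_assoc]
  have hcc : c * c = h • (1 : A) + (2 * s) • α := by
    rw [hc, hhd]
    simp only [mul_add, add_mul, smul_mul_assoc, mul_smul_comm, one_mul, mul_one, haa]
    module
  have hcc' : c * c' = e • (1 : A) := by
    rw [hc, hc', hed]
    simp only [mul_sub, add_mul, smul_mul_assoc, mul_smul_comm, one_mul, mul_one, haa]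
    module
  have hc'c : c' * c = e • (1 : A) := by
    rw [hc, hc', hed]
    simp only [mul_add, sub_mul, smul_mul_assoc, mul_smul_comm, one_mul, mul_one, haa]
    module
  obtain ⟨v', hv'⟩ : ∃ v' : Fin 4 → K, v' = ![(h * v 0 - 2 * s * a * v 1) / e,
    (h * v 1 - 2 * s * v 0) / (h * e), (h * v 2 - 2 * s * a * v 3) / e,
    (h * v 3 - 2 * s * v 2) / (h * e)] := ⟨_, rfl⟩
  have e0 : v' 0 + s * a * (h * v' 1) = v 0 - s * a * v 1 := by
    have h0 : v' 0 = (h * v 0 - 2 * s * a * v 1) / e := by rw [hv']; rfl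
    have h1 : v' 1 = (h * v 1 - 2 * s * v 0) / (h * e) := by rw [hv']; rfl
    rw [h0, h1]
    field_simp
    rw [hhd, hed]
    ring
  have e1 : s * v' 0 + h * v' 1 = v 1 - s * v 0 := by
    have h0 : v' 0 = (h * v 0 - 2 * s * a * v 1) / e := by rw [hv']; rfl
    have h1 : v' 1 = (h * v 1 - 2 * s * v 0) / (h * e) := by rw [hv']; rfl
    rw [h0, h1]
    field_simp
    rw [hhd, hed]
    ring
  have e2 : v' 2 + s * a * (h * v' 3) = v 2 - s * a * v 3 := by
    have h0 : v' 2 = (h * v 2 - 2 * s * a * v 3) / e := by rw [hv']; rfl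
    have h1 : v' 3 = (h * v 3 - 2 * s * v 2) / (h * e) := by rw [hv']; rfl
    rw [h0, h1]
    field_simp
    rw [hhd, hed]
    ring
  have e3 : s * v' 2 + h * v' 3 = v 3 - s * v 2 := by
    have h0 : v' 2 = (h * v 2 - 2 * s * a * v 3) / e := by rw [hv']; rfl
    have h1 : v' 3 = (h * v 3 - 2 * s * v 2) / (h * e) := by rw [hv']; rfl
    rw [h0, h1]
    field_simp
    rw [hhd, hed]
    ring
  have hba : β * α = α * β := hab.symm
  have haba : α * β * α = a • β := by
    rw [mul_assoc, hba, ← mul_assoc, haa, smul_mul_assoc, one_mul]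
  have hU : uE (h • α) β v' * c = uE α β v * c' := by
    have l1 : uE (h • α) β v' * c = (v' 0 + s * a * (h * v' 1)) • (1 : A) +
        (s * v' 0 + h * v' 1) • α + (v' 2 + s * a * (h * v' 3)) • β +
        (s * v' 2 + h * v' 3) • (α * β) := by
      rw [hc]
      unfold uE
      simp only [mul_add, add_mul, smul_mul_assoc, mul_smul_comm, one_mul, mul_one, haa, haba,
        hba]
      module
    have l2 : uE α β v * c' = (v 0 - s * a * v 1) • (1 : A) +
        (v 1 - s * v 0) • α + (v 2 - s * a * v 3) • β + (v 3 - s * v 2) • (α * β) := by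
      rw [hc']
      unfold uE
      simp only [mul_sub, add_mul, smul_mul_assoc, mul_smul_comm, one_mul, mul_one, haa, haba,
        hba]
      module
    rw [l1, l2, e0, e1, e2, e3]
  have huc : IsUnit c := by
    refine ⟨⟨c, e⁻¹ • c', ?_, ?_⟩, rfl⟩
    · rw [mul_smul_comm, hcc', smul_smul, inv_mul_cancel₀ he, one_smul]
    · rw [smul_mul_assoc, hc'c, smul_smul, inv_mul_cancel₀ he, one_smul]
  refine ⟨h • α, β, z, w * c, h ^ 2 * a, b, p, 2 * s * a, v', ?_,
    mul_ne_zero (mul_ne_zero h2 hs0) hD.a0⟩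
  refine
    { haa := ?_
      hbb := hD.hbb
      hab := ?_
      hza := ?_
      hzb := hD.hzb
      hwa := ?_
      hwb := ?_
      hzz := hD.hzz
      hww := ?_
      hzw := ?_
      a0 := mul_ne_zero (pow_ne_zero 2 hh) hD.a0
      b0 := hD.b0
      uz := hD.uz
      uw := hD.uw.mul huc }
  · rw [smul_mul_smul_comm, haa, smul_smul, Algebra.algebraMap_eq_smul_one]
    congr 1
    ring
  · rw [smul_mul_assoc, mul_smul_comm, hab]
  · rw [mul_smul_comm, smul_mul_assoc, hza, smul_neg]
  · rw [mul_smul_comm, smul_mul_assoc, mul_assoc, hca, ← mul_assoc, hwa, mul_assoc]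
  · rw [mul_assoc, hcb, ← mul_assoc, hwb, neg_mul, mul_assoc]
  · have : w * c * (w * c) = w * w * (c * c) := by
      rw [mul_assoc, ← mul_assoc c w c, ← hwc, mul_assoc w c c, ← mul_assoc]
    rw [this, hww, hcc, Algebra.algebraMap_eq_smul_one, mul_add, mul_smul_comm, mul_smul_comm,
      mul_one, haa, smul_smul, add_comm]
  · calc z * (w * c) = z * w * c := (mul_assoc _ _ _).symm
      _ = uE α β v * (w * z) * c := by rw [hD.hzw]
      _ = uE α β v * (w * (z * c)) := by rw [mul_assoc, mul_assoc]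
      _ = uE α β v * (w * (c' * z)) := by rw [hzc]
      _ = uE α β v * (c' * (w * z)) := by rw [← mul_assoc w, hwc', mul_assoc]
      _ = uE α β v * c' * (w * z) := (mul_assoc _ _ _).symm
      _ = uE (h • α) β v' * c * (w * z) := by rw [hU]
      _ = uE (h • α) β v' * (c * w * z) := by rw [mul_assoc, ← mul_assoc c]
      _ = uE (h • α) β v' * (w * c * z) := by rw [hwc]

end Pool.Agent.Helper59.PY
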